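import Mathlib

/-!
# Full colourings of hypercubes

A full colouring: every vertex sees all colours within distance one.
-/

namespace Pool.Agent.J6H78.HS

open Finset

/-- Flip one coordinate. -/
def fl {ι : Type*} [DecidableEq ι] (v : ι → Bool) (i : ι) : ι → Bool :=
  Function.update v i (!(v i))

/-- Full colourings of the hypercube on `ι` with colours `K`. -/
def FC (ι K : Type*) [DecidableEq ι] : Prop :=
  ∃ κ : (ι → Bool) → K, ∀ v c, κ v = c ∨ ∃ i, κ (fl v i) = c

theorem FC.map {ι K L : Type*} [DecidableEq ι] (h : FC ι K) (f : K → L)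
    (hf : Function.Surjective f) : FC ι L := by
  obtain ⟨κ, hκ⟩ := h
  refine ⟨fun v => f (κ v), fun v c => ?_⟩
  obtain ⟨d, rfl⟩ := hf c
  rcases hκ v d with h | ⟨i, h⟩
  · left; exact congrArg f h
  · right; exact ⟨i, congrArg f h⟩

theorem FC.congr {ι ι' K : Type*} [DecidableEq ι] [DecidableEq ι'] (e : ι ≃ ι') (h : FC ι K) :
    FC ι' K := by
  obtain ⟨κ, hκ⟩ := h
  refine ⟨fun v => κ (fun i => v (e i)), fun v c => ?_⟩
  rcases hκ (fun i => v (e i)) c with h | ⟨i, h⟩
  · left; exact h
  · right
    refine ⟨e i, ?_⟩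
    rw [← h]
    show κ (fun j => fl v (e i) (e j)) = κ (fl (fun j => v (e j)) i)
    congr 1
    ext j
    simp only [fl]
    by_cases hj : j = i
    · subst hj; simp
    · rw [Function.update_of_ne hj, Function.update_of_ne (fun h => hj (e.injective h))]

theorem fc_unit : FC Unit (ZMod 2) := by
  refine ⟨fun v => if v () then 1 else 0, fun v c => ?_⟩
  have : ∀ (b : Bool) (c : ZMod 2), (if b then (1 : ZMod 2) else 0) = c ∨
      (if !b then (1 : ZMod 2) else 0) = c := by decide
  rcases this (v ()) c with h | h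
  · left; exact h
  · right
    refine ⟨(), ?_⟩
    simpa [fl] using h

open scoped LinearAlgebra.Projectivization

/-- Syndromes with respect to a `p`-ary Hamming code. -/
theorem fc_hamming {ι : Type*} [Fintype ι] [DecidableEq ι] (p : ℕ) [Fact p.Prime] (s : ℕ)
    (h : FC ι (ZMod p)) [DecidableEq (ℙ (ZMod p) (Fin s → ZMod p))] :
    FC (ℙ (ZMod p) (Fin s → ZMod p) × ι) (Fin s → ZMod p) := by
  classical
  have : Fintype (ℙ (ZMod p) (Fin s → ZMod p)) := Fintype.ofFinite _
  obtain ⟨κ, hκ⟩ := h
  refine ⟨fun v => ∑ P : ℙ (ZMod p) (Fin s → ZMod p), κ (fun i => v (P, i)) • P.rep,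
    fun v c => ?_⟩
  by_cases hc : c = ∑ P : ℙ (ZMod p) (Fin s → ZMod p), κ (fun i => v (P, i)) • P.rep
  · left; exact hc.symm
  · right
    set σ := ∑ P : ℙ (ZMod p) (Fin s → ZMod p), κ (fun i => v (P, i)) • P.rep with hσ
    have hd : c - σ ≠ 0 := sub_ne_zero.2 hc
    let P0 : ℙ (ZMod p) (Fin s → ZMod p) := Projectivization.mk (ZMod p) (c - σ) hd
    obtain ⟨a, ha⟩ := Projectivization.exists_smul_eq_mk_rep (ZMod p) (c - σ) hd
    -- c - σ = a⁻¹ • rep
    have ha' : c - σ = ((a⁻¹ : (ZMod p)ˣ) : ZMod p) • P0.rep := by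
      have : P0.rep = a • (c - σ) := ha.symm
      rw [this, Units.smul_def, smul_smul, Units.inv_mul, one_smul]
    have hne : κ (fun i => v (P0, i)) ≠ κ (fun i => v (P0, i)) + ((a⁻¹ : (ZMod p)ˣ) : ZMod p) := by
      intro h
      have : ((a⁻¹ : (ZMod p)ˣ) : ZMod p) = 0 := by
        have := h.symm
        rwa [add_eq_left] at this
      exact (a⁻¹).ne_zero this
    rcases hκ (fun i => v (P0, i)) (κ (fun i => v (P0, i)) + ((a⁻¹ : (ZMod p)ˣ) : ZMod p)) with
      h1 | ⟨i, h1⟩
    · exact absurd h1 hne
    · refine ⟨(P0, i), ?_⟩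
      have e1 : ∀ P : ℙ (ZMod p) (Fin s → ZMod p), P ≠ P0 →
          (fun j => fl v (P0, i) (P, j)) = fun j => v (P, j) := by
        intro P hP
        ext j
        simp only [fl]
        rw [Function.update_of_ne]
        intro h
        exact hP (Prod.ext_iff.1 h).1
      have e2 : (fun j => fl v (P0, i) (P0, j)) = fl (fun j => v (P0, j)) i := by
        ext j
        simp only [fl]
        by_cases hj : j = i
        · subst hj; simp
        · rw [Function.update_of_ne hj, Function.update_of_ne]
          intro h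
          exact hj (Prod.ext_iff.1 h).2
      show ∑ P : ℙ (ZMod p) (Fin s → ZMod p), κ (fun j => fl v (P0, i) (P, j)) • P.rep = c
      rw [← Finset.add_sum_erase _ _ (Finset.mem_univ P0), e2, h1]
      have e3 : ∑ P ∈ univ.erase P0, κ (fun j => fl v (P0, i) (P, j)) • P.rep =
          ∑ P ∈ univ.erase P0, κ (fun j => v (P, j)) • P.rep :=
        Finset.sum_congr rfl fun P hP => by rw [e1 P (Finset.ne_of_mem_erase hP)]
      rw [e3, add_smul, add_assoc, add_comm, add_assoc, add_comm (∑ P ∈ _, _),
        Finset.add_sum_erase univ (fun P : ℙ (ZMod p) (Fin s → ZMod p) =>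
          κ (fun j => v (P, j)) • P.rep) (Finset.mem_univ P0), ← hσ, ← ha']
      abel

/-- Doubling. -/
theorem fc_double {ι K : Type*} [Fintype ι] [DecidableEq ι] (h : FC ι K) :
    FC (Option (ι ⊕ ι)) (K × ZMod 2) := by
  classical
  obtain ⟨κ, hκ⟩ := h
  let b : Bool → ZMod 2 := fun t => if t then 1 else 0
  have hb : ∀ t, b (!t) = b t + 1 := by decide
  have hb2 : ∀ (t : Bool) (c : ZMod 2), b t = c ∨ b t + 1 = c := by decide
  let par : (ι → Bool) → ZMod 2 := fun y => ∑ i, b (y i)
  have hpar : ∀ y i, par (fl y i) = par y + 1 := by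
    intro y i
    simp only [par]
    rw [← Finset.add_sum_erase _ _ (Finset.mem_univ i),
      ← Finset.add_sum_erase univ (fun j => b (y j)) (Finset.mem_univ i)]
    have e1 : ∑ j ∈ univ.erase i, b (fl y i j) = ∑ j ∈ univ.erase i, b (y j) :=
      Finset.sum_congr rfl fun j hj => by
        simp only [fl]
        rw [Function.update_of_ne (Finset.ne_of_mem_erase hj)]
    rw [e1]
    simp only [fl, Function.update_self, hb]
    ring
  have two : ∀ x y : ZMod 2, x = y ∨ x + 1 = y := by decide
  refine ⟨fun v => (κ (fun i => xor (v (some (Sum.inl i))) (v (some (Sum.inr i)))),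
    b (v none) + par (fun i => v (some (Sum.inl i)))), fun v c => ?_⟩
  obtain ⟨c1, c2⟩ := c
  -- effect of the flips
  have f1 : ∀ i : ι, (fun j => xor (fl v (some (Sum.inl i)) (some (Sum.inl j)))
      (fl v (some (Sum.inl i)) (some (Sum.inr j)))) =
      fl (fun j => xor (v (some (Sum.inl j))) (v (some (Sum.inr j)))) i := by
    intro i
    ext j
    by_cases hj : j = i
    · subst hj; simp [fl]
    · simp [fl, Function.update_of_ne, hj]
  have f2 : ∀ i : ι, (fun j => xor (fl v (some (Sum.inr i)) (some (Sum.inl j)))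
      (fl v (some (Sum.inr i)) (some (Sum.inr j)))) =
      fl (fun j => xor (v (some (Sum.inl j))) (v (some (Sum.inr j)))) i := by
    intro i
    ext j
    by_cases hj : j = i
    · subst hj; simp [fl]
    · simp [fl, Function.update_of_ne, hj]
  have f3 : ∀ i : ι, (fun j => fl v (some (Sum.inl i)) (some (Sum.inl j))) =
      fl (fun j => v (some (Sum.inl j))) i := by
    intro i
    ext j
    by_cases hj : j = i
    · subst hj; simp [fl]
    · simp [fl, Function.update_of_ne, hj]
  have f4 : ∀ i : ι, (fun j => fl v (some (Sum.inr i)) (some (Sum.inl j))) =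
      (fun j => v (some (Sum.inl j))) := by
    intro i
    ext j
    simp [fl]
  have f5 : (fun j => xor (fl v none (some (Sum.inl j))) (fl v none (some (Sum.inr j)))) =
      (fun j => xor (v (some (Sum.inl j))) (v (some (Sum.inr j)))) := by
    ext j
    simp [fl]
  have f6 : (fun j => fl v none (some (Sum.inl j))) = (fun j => v (some (Sum.inl j))) := by
    ext j
    simp [fl]
  rcases hκ (fun i => xor (v (some (Sum.inl i))) (v (some (Sum.inr i)))) c1 with h | ⟨i, h⟩
  · rcases two (b (v none) + par (fun i => v (some (Sum.inl i)))) c2 with h2 | h2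
    · left
      exact Prod.ext h h2
    · right
      refine ⟨none, Prod.ext ?_ ?_⟩
      · simp only [f5]; exact h
      · simp only [f6]
        have : b (fl v none none) = b (v none) + 1 := by simp only [fl, Function.update_self, hb]
        rw [this, ← h2]
        ring
  · right
    rcases two (b (v none) + par (fun i => v (some (Sum.inl i)))) c2 with h2 | h2
    · refine ⟨some (Sum.inr i), Prod.ext ?_ ?_⟩
      · simp only [f2]; exact h
      · simp only [f4]
        have : fl v (some (Sum.inr i)) none = v none := by simp [fl]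
        rw [this]
        exact h2
    · refine ⟨some (Sum.inl i), Prod.ext ?_ ?_⟩
      · simp only [f1]; exact h
      · simp only [f3]
        have : fl v (some (Sum.inl i)) none = v none := by simp [fl]
        rw [this, hpar, ← h2]
        ring

/-- There is a full colouring of `Q_n` with `D` colours. -/
def HasFC (n D : ℕ) : Prop := FC (Fin n) (Fin D)

theorem hasFC_of {ι K : Type*} [Fintype ι] [DecidableEq ι] [Finite K] {n D : ℕ} (h : FC ι K)
    (h1 : Fintype.card ι = n) (h2 : Nat.card K = D) : HasFC n D := by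
  classical
  have : Fintype K := Fintype.ofFinite K
  rw [Nat.card_eq_fintype_card] at h2
  exact (h.congr (Fintype.equivFinOfCardEq h1)).map (Fintype.equivFinOfCardEq h2)
    (Equiv.surjective _)

theorem hasFC_one : HasFC 1 2 := hasFC_of fc_unit (by simp) (by simp)

theorem hasFC_double {n D : ℕ} (h : HasFC n D) : HasFC (2 * n + 1) (2 * D) :=
  hasFC_of (fc_double h) (by simp; ring) (by simp [Nat.card_prod]; ring)

theorem hasFC_hamming {n p : ℕ} [hp : Fact p.Prime] (s N : ℕ) (h : HasFC n p)
    (hN : N * (p - 1) + 1 = p ^ s) : HasFC (N * n) (p ^ s) := by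
  classical
  have : Fintype (ℙ (ZMod p) (Fin s → ZMod p)) := Fintype.ofFinite _
  have hf : FC (Fin n) (ZMod p) := by
    have e : Fin p ≃ ZMod p := Fintype.equivOfCardEq (by simp [ZMod.card])
    exact FC.map h e e.surjective
  refine hasFC_of (fc_hamming p s hf) ?_ (by simp [Nat.card_eq_fintype_card, ZMod.card])
  have hc := Projectivization.card' (ZMod p) (Fin s → ZMod p)
  rw [Nat.card_eq_fintype_card, Nat.card_eq_fintype_card, Nat.card_eq_fintype_card,
    Fintype.card_fun, ZMod.card, Fintype.card_fin] at hc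
  have h2 := hp.out.two_le
  rw [Fintype.card_prod, Fintype.card_fin]
  have h3 : Fintype.card (ℙ (ZMod p) (Fin s → ZMod p)) * (p - 1) = N * (p - 1) := by omega
  rw [Nat.eq_of_mul_eq_mul_right (by omega) h3]

theorem HasFC.merge {n D E : ℕ} (h : HasFC n D) (hE : 0 < E) (hED : E ≤ D) : HasFC n E := by
  refine FC.map h (fun i => ⟨min i (E - 1), by omega⟩) ?_
  intro j
  refine ⟨⟨j, lt_of_lt_of_le j.2 hED⟩, ?_⟩
  ext
  have := j.2
  simp
  omega

instance : Fact (Nat.Prime 127) := ⟨by norm_num⟩

/-- Lengths near `127 ^ s`. -/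
theorem hasFC_127 (s N : ℕ) (hN : N * 126 + 1 = 127 ^ s) : HasFC (N * 127) (127 ^ s) := by
  have h1 : HasFC (127 * 1) (2 ^ 7) :=
    hasFC_hamming (p := 2) 7 127 hasFC_one (by norm_num)
  have h2 : HasFC 127 127 := by
    have := h1.merge (E := 127) (by norm_num) (by norm_num)
    simpa using this
  exact hasFC_hamming (p := 127) s N h2 (by simpa using hN)

theorem hasFC_double_iter {n D : ℕ} (h : HasFC n D) (j : ℕ) :
    HasFC ((n + 1) * 2 ^ j - 1) (D * 2 ^ j) := by
  induction j with
  | zero => simpa using h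
  | succ j ih =>
    have := hasFC_double ih
    have e1 : 2 * ((n + 1) * 2 ^ j - 1) + 1 = (n + 1) * 2 ^ (j + 1) - 1 := by
      have h1 : 0 < (n + 1) * 2 ^ j := by positivity
      have h2 : (n + 1) * 2 ^ (j + 1) = 2 * ((n + 1) * 2 ^ j) := by rw [pow_succ]; ring
      rw [h2]
      omega
    have e2 : 2 * (D * 2 ^ j) = D * 2 ^ (j + 1) := by rw [pow_succ]; ring
    rwa [e1, e2] at this

end Pool.Agent.J6H78.HS
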