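import Pool.Agent.J6H78.HS.Upper

/-!
# The upper bound for all dimensions
-/

namespace Pool.Agent.J6H78.HS

open Finset Filter
open Pool.Agent.Results.MP_71830d_co.Separation

theorem geom (s : ℕ) : ∃ N, N * 126 + 1 = 127 ^ s := by
  induction s with
  | zero => exact ⟨0, by norm_num⟩
  | succ s ih =>
    obtain ⟨N, hN⟩ := ih
    exact ⟨N * 127 + 1, by rw [pow_succ, ← hN]; ring⟩

set_option exponentiation.threshold 2000 in
theorem num : 2 * 127 ^ 89 ≤ 2 ^ 623 := by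
  have h : 2 * 127 ^ 89 ≤ (2 ^ 89) ^ 7 := by norm_num
  rwa [← pow_mul] at h

/-- Products `127 ^ s * 2 ^ j` are dense. -/
theorem sel (Y : ℕ) (hY : 2 ^ 700 ≤ Y) : ∃ s j, 127 * (127 ^ s * 2 ^ j) ≤ Y ∧
    Y < 128 * (127 ^ s * 2 ^ j) := by
  set K := Nat.log 2 Y + 1 with hK
  have h1 : Y < 2 ^ K := Nat.lt_pow_succ_log_self (by norm_num) Y
  have h2 : 2 ^ K ≤ 2 * Y := by
    rw [hK, pow_succ, mul_comm]
    exact Nat.mul_le_mul_left 2 (Nat.pow_log_le_self 2 (lt_of_lt_of_le (by positivity) hY).ne')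
  have h3 : 700 < K := by
    rw [hK]
    have : 700 ≤ Nat.log 2 Y := Nat.le_log_of_pow_le (by norm_num) hY
    omega
  have hex : ∃ s, 127 ^ s * 2 ^ (K - 7 * s) ≤ Y := by
    refine ⟨89, ?_⟩
    have e1 : K = 623 + (K - 7 * 89) := by omega
    have h4 : 2 * (127 ^ 89 * 2 ^ (K - 7 * 89)) ≤ 2 ^ K := by
      conv_rhs => rw [e1, pow_add]
      have : 2 * 127 ^ 89 ≤ 2 ^ 623 := num
      calc 2 * (127 ^ 89 * 2 ^ (K - 7 * 89)) = (2 * 127 ^ 89) * 2 ^ (K - 7 * 89) := by ring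
        _ ≤ 2 ^ 623 * 2 ^ (K - 7 * 89) := Nat.mul_le_mul_right _ this
    omega
  classical
  set t := Nat.find hex with ht
  have ht1 : 127 ^ t * 2 ^ (K - 7 * t) ≤ Y := Nat.find_spec hex
  have ht0 : t ≠ 0 := by
    intro h0
    rw [h0] at ht1
    simp at ht1
    omega
  obtain ⟨s, hs⟩ := Nat.exists_eq_succ_of_ne_zero ht0
  have ht2 : ¬ 127 ^ s * 2 ^ (K - 7 * s) ≤ Y := Nat.find_min hex (by omega)
  have ht3 : t ≤ 89 := by
    apply Nat.find_min' hex
    have e1 : K = 623 + (K - 7 * 89) := by omega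
    have h4 : 2 * (127 ^ 89 * 2 ^ (K - 7 * 89)) ≤ 2 ^ K := by
      conv_rhs => rw [e1, pow_add]
      have : 2 * 127 ^ 89 ≤ 2 ^ 623 := num
      calc 2 * (127 ^ 89 * 2 ^ (K - 7 * 89)) = (2 * 127 ^ 89) * 2 ^ (K - 7 * 89) := by ring
        _ ≤ 2 ^ 623 * 2 ^ (K - 7 * 89) := Nat.mul_le_mul_right _ this
    omega
  refine ⟨s, K - 7 * t, ?_, ?_⟩
  · rw [hs] at ht1 ⊢
    rw [pow_succ] at ht1
    calc 127 * (127 ^ s * 2 ^ (K - 7 * s.succ)) = 127 ^ s * 127 * 2 ^ (K - 7 * (s + 1)) := by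
          ring
      _ ≤ Y := ht1
  · push Not at ht2
    have e2 : K - 7 * s = 7 + (K - 7 * t) := by omega
    rw [e2, pow_add] at ht2
    calc Y < 127 ^ s * (2 ^ 7 * 2 ^ (K - 7 * t)) := ht2
      _ = 128 * (127 ^ s * 2 ^ (K - 7 * t)) := by ring

theorem sSat_upper (n : ℕ) (hn : 2 ^ 701 ≤ n) : (sSat n : ℝ) ≤ 61 / 20 * 2 ^ n := by
  set M := n / 2 + 1 with hM
  obtain ⟨s, j, h1, h2⟩ := sel (126 * M) (by omega)
  obtain ⟨N, hN⟩ := geom s
  set D := 127 ^ s * 2 ^ j with hD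
  have hFC := hasFC_double_iter (hasFC_127 s N hN) j
  rw [← hD] at hFC
  set L := (N * 127 + 1) * 2 ^ j - 1 with hL
  have hDpos : 0 < D := by positivity
  have h3 : (N * 127 + 1) * 2 ^ j ≤ M := by
    have h4 : 126 * ((N * 127 + 1) * 2 ^ j) ≤ 127 * D := by
      calc 126 * ((N * 127 + 1) * 2 ^ j) = (127 * (N * 126 + 1) - 1) * 2 ^ j := by
            have : 127 * (N * 126 + 1) - 1 = 126 * (N * 127 + 1) := by omega
            rw [this]; ring
        _ ≤ (127 * (N * 126 + 1)) * 2 ^ j := Nat.mul_le_mul_right _ (Nat.sub_le _ _)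
        _ = 127 * D := by rw [hN, hD]; ring
    omega
  have h5 : 2 * L ≤ n := by omega
  have h6 := upper_gen hDpos hFC h5
  have h7 : (n + L : ℝ) ≤ 61 / 20 * D := by
    have h8 : (126 * M : ℝ) < 128 * D := by exact_mod_cast h2
    have h9 : (n : ℝ) ≤ 2 * M := by
      have : n ≤ 2 * M := by omega
      exact_mod_cast this
    have h10 : (2 * L : ℝ) ≤ n := by exact_mod_cast h5
    linarith
  have h11 : (D : ℝ) * sSat n ≤ (n + L) * 2 ^ n := by exact_mod_cast h6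
  have h12 : (0 : ℝ) < D := by exact_mod_cast hDpos
  have h13 : (0 : ℝ) < 2 ^ n := by positivity
  have h14 : (D : ℝ) * sSat n ≤ D * (61 / 20 * 2 ^ n) := by
    calc (D : ℝ) * sSat n ≤ (n + L) * 2 ^ n := h11
      _ ≤ (61 / 20 * D) * 2 ^ n := mul_le_mul_of_nonneg_right h7 h13.le
      _ = D * (61 / 20 * 2 ^ n) := by ring
  exact le_of_mul_le_mul_left h14 h12

theorem separation :
    limsup (fun n : ℕ => (((sSat n : ℝ) / 2 ^ n : ℝ) : EReal)) atTop <
      liminf (fun n : ℕ => (((satNum n : ℝ) / 2 ^ n : ℝ) : EReal)) atTop := by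
  have h1 : limsup (fun n : ℕ => (((sSat n : ℝ) / 2 ^ n : ℝ) : EReal)) atTop ≤
      ((61 / 20 : ℝ) : EReal) := by
    apply limsup_le_of_le
    · isBoundedDefault
    · filter_upwards [eventually_ge_atTop (2 ^ 701)] with n hn
      rw [EReal.coe_le_coe_iff, div_le_iff₀ (by positivity)]
      exact sSat_upper n hn
  have h2 : ((31 / 10 : ℝ) : EReal) ≤
      liminf (fun n : ℕ => (((satNum n : ℝ) / 2 ^ n : ℝ) : EReal)) atTop := by
    apply le_liminf_of_le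
    · isBoundedDefault
    · filter_upwards [eventually_ge_atTop (10 ^ 16)] with n hn
      rw [EReal.coe_le_coe_iff, le_div_iff₀ (by positivity)]
      exact sat_lower n hn
  refine lt_of_le_of_lt h1 (lt_of_lt_of_le ?_ h2)
  rw [EReal.coe_lt_coe_iff]
  norm_num

end Pool.Agent.J6H78.HS
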