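import Pool.Agent.J6H78.HS.Color
import Pool.Agent.Results.MP_71830d_co.Separation

/-!
# Semi-saturated graphs from full colourings, for every dimension
-/

namespace Pool.Agent.J6H78.HS

open Finset Filter
open Pool.Agent.Results.MP_71830d_co.Separation

/-- A colour class of a full colouring in some of the directions. -/
theorem lift {n L D : ℕ} (hD : 0 < D) (h : HasFC L D) (e : Fin L ↪ Fin n) :
    ∃ Z : Finset (Fin n → Bool), D * Z.card ≤ 2 ^ n ∧
      (∀ v, v ∈ Z ∨ ∃ i, flp v (e i) ∈ Z) ∧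
      (∀ v j, j ∉ Set.range e → (flp v j ∈ Z ↔ v ∈ Z)) := by
  classical
  obtain ⟨κ, hκ⟩ := h
  let κ' : (Fin n → Bool) → Fin D := fun v => κ (fun i => v (e i))
  have ha : ∀ v c, κ' v = c ∨ ∃ i, κ' (flp v (e i)) = c := by
    intro v c
    rcases hκ (fun i => v (e i)) c with h | ⟨i, h⟩
    · exact Or.inl h
    · right
      refine ⟨i, ?_⟩
      rw [← h]
      show κ (fun j => flp v (e i) (e j)) = κ (fl (fun j => v (e j)) i)
      congr 1
      ext j
      simp only [fl, flp]
      by_cases hj : j = i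
      · subst hj; simp
      · rw [Function.update_of_ne hj, Function.update_of_ne (fun h => hj (e.injective h))]
  have hb : ∀ v j, j ∉ Set.range e → κ' (flp v j) = κ' v := by
    intro v j hj
    show κ (fun i => flp v j (e i)) = κ (fun i => v (e i))
    congr 1
    ext i
    simp only [flp]
    rw [Function.update_of_ne]
    intro h
    exact hj ⟨i, h⟩
  have hsum : ∑ c : Fin D, (univ.filter fun v => κ' v = c).card = 2 ^ n := by
    have h2 := Finset.card_eq_sum_card_fiberwise (f := κ')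
      (s := univ) (t := univ) (fun _ _ => Finset.mem_coe.2 (Finset.mem_univ _))
    rw [← h2]
    simp
  obtain ⟨c, hc⟩ : ∃ c : Fin D, D * (univ.filter fun v => κ' v = c).card ≤ 2 ^ n := by
    by_contra hcon
    push Not at hcon
    have h3 : ∑ c : Fin D, 2 ^ n < ∑ c : Fin D, D * (univ.filter fun v => κ' v = c).card :=
      Finset.sum_lt_sum_of_nonempty ⟨⟨0, hD⟩, Finset.mem_univ _⟩ (fun c _ => hcon c)
    rw [← Finset.mul_sum, hsum] at h3
    simp at h3
  refine ⟨univ.filter fun v => κ' v = c, hc, ?_, ?_⟩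
  · intro v
    rcases ha v c with h | ⟨i, h⟩
    · left; simp [h]
    · right; exact ⟨i, by simp [h]⟩
  · intro v j hj
    simp [hb v j hj]

open Classical in
theorem card_bound {n L D : ℕ} (Z : Finset (Fin n → Bool)) (e : Fin L ↪ Fin n)
    (hZ : D * Z.card ≤ 2 ^ n) (hb : ∀ v j, j ∉ Set.range e → (flp v j ∈ Z ↔ v ∈ Z)) :
    D * ∑ v, (univ.filter fun i : Fin n => v ∈ Z ∨ flp v i ∈ Z).card ≤ (n + L) * 2 ^ n := by
  have h1 : ∑ v : Fin n → Bool, (univ.filter fun i : Fin n => v ∈ Z ∨ flp v i ∈ Z).card =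
      ∑ i : Fin n, (univ.filter fun v : Fin n → Bool => v ∈ Z ∨ flp v i ∈ Z).card := by
    simp only [card_filter]
    exact Finset.sum_comm
  have h2 : ∀ i : Fin n, (univ.filter fun v : Fin n → Bool => flp v i ∈ Z).card = Z.card := by
    intro i
    rw [← Finset.card_image_of_injective _ (Function.Involutive.injective
      (f := fun v : Fin n → Bool => flp v i) (fun v => flp_flp v i))]
    congr 1
    ext v
    simp only [Finset.mem_image, Finset.mem_filter, Finset.mem_univ, true_and]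
    constructor
    · rintro ⟨u, hu, rfl⟩; exact hu
    · intro hv
      exact ⟨flp v i, by rwa [flp_flp], flp_flp v i⟩
  have h3 : ∀ i : Fin n, (univ.filter fun v : Fin n → Bool => v ∈ Z ∨ flp v i ∈ Z).card ≤
      Z.card + if i ∈ Set.range e then Z.card else 0 := by
    intro i
    split_ifs with hi
    · have : (univ.filter fun v : Fin n → Bool => v ∈ Z ∨ flp v i ∈ Z) =
          Z ∪ (univ.filter fun v : Fin n → Bool => flp v i ∈ Z) := by
        ext v; simp
      rw [this]
      refine (Finset.card_union_le _ _).trans ?_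
      rw [h2 i]
    · have : (univ.filter fun v : Fin n → Bool => v ∈ Z ∨ flp v i ∈ Z) = Z := by
        ext v; simp [hb v i hi]
      rw [this, add_zero]
  have h4 : ∑ i : Fin n, (Z.card + if i ∈ Set.range e then Z.card else 0) =
      (n + L) * Z.card := by
    rw [Finset.sum_add_distrib, Finset.sum_const, ← Finset.sum_filter, Finset.sum_const]
    have : (univ.filter fun i : Fin n => i ∈ Set.range e).card = L := by
      have : (univ.filter fun i : Fin n => i ∈ Set.range e) = univ.map e := by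
        ext i; simp
      rw [this, Finset.card_map]
      simp
    rw [this]
    simp
    ring
  rw [h1]
  calc D * ∑ i : Fin n, (univ.filter fun v : Fin n → Bool => v ∈ Z ∨ flp v i ∈ Z).card
      ≤ D * ((n + L) * Z.card) := by
        rw [← h4]
        exact Nat.mul_le_mul_left _ (Finset.sum_le_sum fun i _ => h3 i)
    _ = (n + L) * (D * Z.card) := by ring
    _ ≤ (n + L) * 2 ^ n := Nat.mul_le_mul_left _ hZ

/-- Semi-saturated graphs from full colourings. -/
theorem upper_gen {n L D : ℕ} (hD : 0 < D) (h : HasFC L D) (h2 : 2 * L ≤ n) :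
    D * sSat n ≤ (n + L) * 2 ^ n := by
  classical
  let e1 : Fin L ↪ Fin n := ⟨fun i => ⟨i, by omega⟩, fun i j hij => by
    simpa [Fin.ext_iff] using hij⟩
  let e2 : Fin L ↪ Fin n := ⟨fun i => ⟨i + L, by omega⟩, fun i j hij => by
    simpa [Fin.ext_iff] using hij⟩
  have hdis : ∀ i : Fin n, i ∉ Set.range e1 ∨ i ∉ Set.range e2 := by
    intro i
    by_contra hcon
    push Not at hcon
    obtain ⟨⟨a, ha⟩, ⟨b, hb⟩⟩ := hcon
    have h3 : (a : ℕ) = (b : ℕ) + L := by
      exact congrArg Fin.val (ha.trans hb.symm)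
    have := a.2
    omega
  obtain ⟨Z1, hc1, ha1, hb1⟩ := lift hD h e1
  obtain ⟨Z2, hc2, ha2, hb2⟩ := lift hD h e2
  let G : SimpleGraph (Fin n → Bool) :=
    { Adj := fun u v => (Q n).Adj u v ∧ ((u ∈ Z1 ∨ u ∈ Z2) ∨ (v ∈ Z1 ∨ v ∈ Z2))
      symm := ⟨fun u v h => ⟨h.1.symm, h.2.symm⟩⟩
      loopless := ⟨fun u h => (Q n).loopless.irrefl u h.1⟩ }
  have hGQ : G ≤ Q n := fun u v h => h.1
  have hSS : SemiSat G := by
    refine ⟨hGQ, ?_⟩
    intro x y hxy hnot
    obtain ⟨i, rfl⟩ := adj_flp hxy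
    have hx : ¬ (x ∈ Z1 ∨ x ∈ Z2) := fun h => hnot ⟨hxy, Or.inl h⟩
    rw [not_or] at hx
    obtain ⟨j, hij, hj1, hj2⟩ : ∃ j, i ≠ j ∧ (flp x j ∈ Z1 ∨ flp x j ∈ Z2) ∧
        (flp (flp x i) j ∈ Z1 ∨ flp (flp x i) j ∈ Z2) := by
      rcases hdis i with hi | hi
      · obtain ⟨j, hj⟩ := (ha1 x).resolve_left hx.1
        refine ⟨e1 j, fun h => hi ⟨j, h.symm⟩, Or.inl hj, Or.inl ?_⟩
        rw [flp_comm, hb1 _ i hi]
        exact hj
      · obtain ⟨j, hj⟩ := (ha2 x).resolve_left hx.2
        refine ⟨e2 j, fun h => hi ⟨j, h.symm⟩, Or.inr hj, Or.inr ?_⟩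
        rw [flp_comm, hb2 _ i hi]
        exact hj
    refine ⟨flp (flp x i) j, flp x j, ?_, ?_, ?_, ?_, ?_⟩
    · intro hc
      have h1 := congrFun hc i
      rw [flp_of_ne _ hij, flp_self] at h1
      revert h1
      cases x i <;> simp
    · intro hc
      exact hij (flp_inj x hc)
    · exact ⟨flp_adj _ _, Or.inr hj2⟩
    · refine ⟨?_, Or.inl hj2⟩
      rw [flp_comm]
      exact (flp_adj _ _).symm
    · exact ⟨(flp_adj _ _).symm, Or.inl hj1⟩
  have hle : sSat n ≤ G.edgeSet.ncard := Nat.sInf_le ⟨G, hSS, rfl⟩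
  have hsum := sum_deg hGQ
  have hdeg : ∀ v, deg (fun u i => G.Adj u (flp u i)) v ≤
      (univ.filter fun i : Fin n => v ∈ Z1 ∨ flp v i ∈ Z1).card +
      (univ.filter fun i : Fin n => v ∈ Z2 ∨ flp v i ∈ Z2).card := by
    intro v
    have hsub : ∀ i, G.Adj v (flp v i) → i ∈
        (univ.filter fun i : Fin n => v ∈ Z1 ∨ flp v i ∈ Z1) ∪
        (univ.filter fun i : Fin n => v ∈ Z2 ∨ flp v i ∈ Z2) := by
      intro i hi
      have := hi.2
      simp only [Finset.mem_union, Finset.mem_filter, Finset.mem_univ, true_and]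
      tauto
    refine le_trans (Finset.card_le_card ?_) (Finset.card_union_le _ _)
    intro i hi
    exact hsub i (by simpa using hi)
  have h5 := Finset.sum_le_sum (s := univ) (fun v _ => hdeg v)
  rw [hsum, Finset.sum_add_distrib] at h5
  have h6 := card_bound Z1 e1 hc1 hb1
  have h7 := card_bound Z2 e2 hc2 hb2
  have h8 : D * (2 * G.edgeSet.ncard) ≤ (n + L) * 2 ^ n + (n + L) * 2 ^ n := by
    refine (Nat.mul_le_mul_left D h5).trans ?_
    rw [mul_add]
    exact Nat.add_le_add h6 h7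
  have h9 : D * sSat n ≤ D * G.edgeSet.ncard := Nat.mul_le_mul_left D hle
  linarith

end Pool.Agent.J6H78.HS
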